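import Mathlib
import Pool.Agent.H28.Mols9

namespace Pool.Agent.Results.MP_adbd0c_co.NineEight

open Pool.Agent.H28.Mols9

/-- The largest number of mutually orthogonal latin squares of order nine, none isotopic to a
group, is eight. -/
theorem result :
    IsGreatest {m : ℕ | ∃ Q : Fin m → Fin 9 → Fin 9 → Fin 9,
      (∀ k a b, (∃! x, Q k a x = b) ∧ (∃! y, Q k y a = b)) ∧
      (∀ k, ¬ ∃ (G : Type) (_ : Group G) (α β γ : Fin 9 ≃ G),
        ∀ x y, γ (Q k x y) = α x * β y) ∧
      (∀ k l, k ≠ l →
        Function.Injective (fun p : Fin 9 × Fin 9 => (Q k p.1 p.2, Q l p.1 p.2)))} 8 := by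
  constructor
  · refine ⟨T, fun k a b => ⟨?_, ?_⟩, ?_, ?_⟩
    · have h : Function.Bijective (T k a) :=
        (Finite.injective_iff_bijective).1 (fun x y h => row_inj k a x y h)
      exact h.existsUnique b
    · have h : Function.Bijective (fun y => T k y a) :=
        (Finite.injective_iff_bijective).1 (fun x y h => col_inj k a x y h)
      exact h.existsUnique b
    · rintro k ⟨G, _, α, β, γ, h⟩
      obtain ⟨h1, h2, h3, h4⟩ := quad k
      apply h4
      apply γ.injective
      have e1 := congrArg γ h1
      have e2 := congrArg γ h2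
      have e3 := congrArg γ h3
      rw [h, h] at e1 e2 e3
      rw [h, h]
      calc α (W k 2) * β (W k 3)
          = (α (W k 2) * β (W k 1)) * (α (W k 0) * β (W k 1))⁻¹ * (α (W k 0) * β (W k 3)) := by
            group
        _ = α (W k 6) * β (W k 7) := by
            rw [e1, e2, e3]; group
    · rintro k l hkl ⟨a, b⟩ ⟨c, d⟩ h
      simp only [Prod.mk.injEq] at h ⊢
      exact orth k l hkl a b c d h.1 h.2
  · rintro m ⟨Q, hQ, -, ho⟩
    have hj : ∀ k, ∃ j : Fin 9, Q k 0 j = Q k 1 0 := fun k => (hQ k 0 (Q k 1 0)).1.exists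
    choose j hj using hj
    have hne : ∀ k, j k ≠ 0 := by
      intro k h0
      have h1 := hj k
      rw [h0] at h1
      have := (hQ k 0 (Q k 1 0)).2.unique h1 rfl
      exact absurd this (by decide)
    have hinj : Function.Injective j := by
      intro k l hkl
      by_contra hkl'
      have := @ho k l hkl' (0, j k) (1, 0) (by
        simp only [Prod.mk.injEq]
        exact ⟨hj k, by rw [hkl]; exact hj l⟩)
      simp at this
    have hc : Fintype.card (Fin m) ≤ Fintype.card {x : Fin 9 // x ≠ 0} :=
      Fintype.card_le_of_injective (fun k => ⟨j k, hne k⟩)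
        (fun a b h => hinj (congrArg Subtype.val h))
    simpa using hc

end Pool.Agent.Results.MP_adbd0c_co.NineEight
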